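import Pool.Agent.H63.T5.Local
import Pool.Agent.H63.T3.Form3
import Pool.Agent.H63.T3.Gam3
import Pool.Agent.H63.T3.Zet
import Pool.Agent.H63.TP.Gam
import Pool.Graph.R_pool_sql_team_seeded_1acbe0a2.Y818.FV.GROW
import Pool.Graph.R_pool_sql_team_seeded_1acbe0a2.Y818.FV.ZETA
import Pool.Graph.R_pool_sql_team_seeded_1acbe0a2.Y818.FV.ORD

/-!
# The zeros of `L(s, φ × φ~)` and of `ζ(s)` differ
-/

set_option autoImplicit false

namespace Pool.Agent.H63.T5

open Complex Filter Topology Metric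
open Pool.Agent.W189.TP (DS DS_norm_le DS_diff)
open Pool.Agent.H63.T3
open Pool.Agent.H63.T3.SphericalForm
open Pool.Agent.Y818.FV (zeta grow ZZ hi mi zeta_dj zeta_exp zeta_kj ord_entire ord_mul ord_zero ord_refl logd bd)

theorem zeta_compl : ∃ Z : ℂ → ℂ, Differentiable ℂ Z ∧
    (∃ K : ℝ, ∀ s, ‖Z s‖ ≤ Real.exp (K * (1 + ‖s‖) ^ (3 / 2 : ℝ))) ∧
    (∀ s, Z (1 - s) = Z s) ∧ ∀ s, Z s * (Gammaℝ s)⁻¹ = s * riemannZeta₁ s := by
  obtain ⟨G, Ξ, h⟩ := zeta ∅ (fun _ => 0) (fun _ => 0) 0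
  refine ⟨Ξ, h.Xi_diff, ?_, ?_, ?_⟩
  · obtain ⟨K, hK⟩ := (grow ∅ _ _ _ _ _ _ _ _ h).2
    refine ⟨K, fun s => ?_⟩
    have := hK s
    unfold ZZ hi mi at this
    simpa using this
  · intro s
    rw [h.fe, one_mul]
  · have hG : G = riemannZeta₁ := by
      refine AnalyticOnNhd.eq_of_eventuallyEq (z₀ := 2) (fun z _ => h.G_diff.analyticAt z)
        (fun z _ => differentiable_riemannZeta₁.analyticAt z) ?_
      have hopen : IsOpen {s : ℂ | 1 < s.re} := isOpen_lt continuous_const Complex.continuous_re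
      have hmem : (2 : ℂ) ∈ {s : ℂ | 1 < s.re} := by simp
      filter_upwards [hopen.mem_nhds hmem] with s hs
      have hs' : 1 < s.re := hs
      have hs1 : s ≠ 1 := by
        rintro rfl
        simp at hs'
      have h1 := h.euler s hs'
      rw [zeta_dj, zeta_exp ∅ hs'] at h1
      unfold bd at h1
      simp only [Finset.prod_empty, mul_one] at h1
      rw [h1, riemannZeta_eq_inv_sub_mul hs1]
      have h2 : s - 1 ≠ 0 := sub_ne_zero.2 hs1
      field_simp
    intro s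
    have h1 := congrFun (ord_entire h) s
    rw [hG] at h1
    simp only [zeta_kj, add_zero, Finset.prod_const, Complex.ofReal_one, one_cpow, mul_one] at h1
    have h2 : (Finset.univ : Finset (Fin (0 + 1) × Fin (0 + 1))).card = 1 := by simp
    rw [h2, pow_one] at h1
    exact h1

/-- the asymptotic behaviour of the Gamma factors -/
theorem gam_grow {ι : Type*} [Fintype ι] (a : ι → ℂ) (hcard : 4 ≤ Fintype.card ι) (M : ℝ) (Y : ℝ) :
    ∃ y : ℝ, Y ≤ y ∧ M ≤ (∑ x, logDeriv Gammaℝ ((y : ℂ) + a x)).re - (logDeriv Gammaℝ (y : ℂ)).re := by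
  classical
  obtain ⟨B, hB0, hB⟩ : ∃ B : ℝ, 0 ≤ B ∧ ∀ x, ‖a x‖ ≤ B := by
    refine ⟨∑ x, ‖a x‖, Finset.sum_nonneg fun x _ => norm_nonneg _, fun x => ?_⟩
    exact Finset.single_le_sum (f := fun x => ‖a x‖) (fun x _ => norm_nonneg _) (Finset.mem_univ x)
  set gg : ℝ → ℝ := fun y => (∑ x, logDeriv Gammaℝ ((y : ℂ) + a x)).re - (logDeriv Gammaℝ (y : ℂ)).re with hgg
  have hstep : ∀ y : ℝ, 5 * B + 1 ≤ y → gg y + 1 / y ≤ gg (y + 2) := by
    intro y hy
    have hy0 : 0 < y := by linarith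
    have h1 : ∀ x, (logDeriv Gammaℝ (((y + 2 : ℝ) : ℂ) + a x)).re =
        (logDeriv Gammaℝ ((y : ℂ) + a x)).re + (1 / ((y : ℂ) + a x)).re := by
      intro x
      have hre : 0 < ((y : ℂ) + a x).re := by
        have := abs_re_le_norm (a x)
        have h2 := neg_abs_le (a x).re
        have h3 := hB x
        simp
        linarith
      have h2 := TP.logDeriv_shift hre
      have h3 : (((y + 2 : ℝ) : ℂ) + a x) = (y : ℂ) + a x + 2 := by push_cast; ring
      rw [h3, h2, sub_re]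
      ring
    have h2 : (logDeriv Gammaℝ (((y + 2 : ℝ) : ℂ))).re = (logDeriv Gammaℝ (y : ℂ)).re + 1 / y := by
      have h2 := TP.logDeriv_shift (z := (y : ℂ)) (by simpa using hy0)
      have h3 : (((y + 2 : ℝ) : ℂ)) = (y : ℂ) + 2 := by push_cast; ring
      have h4 : (1 / (y : ℂ)).re = 1 / y := by
        rw [← ofReal_one, ← ofReal_div, ofReal_re]
      rw [h3, h2, sub_re, h4]
      ring
    have h3 : ∀ x, 1 / (2 * y) ≤ (1 / ((y : ℂ) + a x)).re := by
      intro x
      have hb := hB x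
      have hre1 := abs_re_le_norm (a x)
      have hre2 := neg_abs_le (a x).re
      have hpos : 0 < ((y : ℂ) + a x).re := by
        simp
        linarith
      have hne : (y : ℂ) + a x ≠ 0 := by
        intro h0
        rw [h0] at hpos
        simp at hpos
      have hn : 0 < normSq ((y : ℂ) + a x) := normSq_pos.2 hne
      rw [one_div ((y : ℂ) + a x), inv_re, div_le_div_iff₀ (by linarith) hn, one_mul]
      have h4 : normSq ((y : ℂ) + a x) ≤ (y + ‖a x‖) ^ 2 := by
        rw [normSq_eq_norm_sq]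
        have := norm_add_le (y : ℂ) (a x)
        rw [norm_real, Real.norm_of_nonneg hy0.le] at this
        exact pow_le_pow_left₀ (norm_nonneg _) this 2
      have h5 : ((y : ℂ) + a x).re = y + (a x).re := by simp
      rw [h5]
      have h6 : y - ‖a x‖ ≤ y + (a x).re := by linarith
      have h7 : 0 ≤ ‖a x‖ := norm_nonneg _
      have h8 : 5 * ‖a x‖ ≤ y := by linarith
      nlinarith [mul_nonneg h7 hy0.le, mul_nonneg h7 (by linarith : 0 ≤ y - 5 * ‖a x‖), mul_nonneg hy0.le (by linarith : 0 ≤ y - 5 * ‖a x‖)]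
    have h4 : (Fintype.card ι : ℝ) * (1 / (2 * y)) ≤ ∑ x, (1 / ((y : ℂ) + a x)).re := by
      rw [← nsmul_eq_mul, ← Finset.card_univ]
      exact Finset.card_nsmul_le_sum _ _ _ fun x _ => h3 x
    have h5 : 2 / y ≤ (Fintype.card ι : ℝ) * (1 / (2 * y)) := by
      have : (4 : ℝ) ≤ Fintype.card ι := by exact_mod_cast hcard
      calc 2 / y = 4 * (1 / (2 * y)) := by field_simp; norm_num
        _ ≤ _ := by gcongr
    simp only [hgg, re_sum]
    simp_rw [h1]
    rw [h2, Finset.sum_add_distrib]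
    have h6 : 2 / y = 1 / y + 1 / y := by ring
    linarith
  set Y0 : ℝ := max Y (5 * B + 1) with hY0
  have hY1 : 5 * B + 1 ≤ Y0 := le_max_right _ _
  have hYpos : 0 < Y0 := by linarith
  have hind : ∀ k : ℕ, gg Y0 + ∑ j ∈ Finset.range k, 1 / (Y0 + 2 * j) ≤ gg (Y0 + 2 * k) := by
    intro k
    induction k with
    | zero => simp
    | succ k ih =>
      rw [Finset.sum_range_succ]
      have h1 := hstep (Y0 + 2 * k) (by
        have : (0 : ℝ) ≤ k := Nat.cast_nonneg _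
        linarith)
      have h2 : Y0 + 2 * ((k + 1 : ℕ) : ℝ) = Y0 + 2 * k + 2 := by push_cast; ring
      rw [h2]
      linarith
  have hdiv : Tendsto (fun k : ℕ => gg Y0 + (1 / (Y0 + 2)) * ∑ j ∈ Finset.range k, (1 / ((j : ℝ) + 1))) atTop atTop := by
    refine tendsto_atTop_add_const_left _ _ ?_
    exact Real.tendsto_sum_range_one_div_nat_succ_atTop.const_mul_atTop (by positivity)
  obtain ⟨k, hk⟩ := (hdiv.eventually_ge_atTop M).exists
  refine ⟨Y0 + 2 * k, ?_, ?_⟩
  · have h1 : (0 : ℝ) ≤ k := Nat.cast_nonneg _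
    have h2 : Y ≤ Y0 := le_max_left _ _
    linarith
  · refine hk.trans ((le_trans ?_ (hind k)).trans_eq (by simp [hgg]))
    rw [Finset.mul_sum]
    gcongr with j _
    have h1 : (0 : ℝ) ≤ j := Nat.cast_nonneg _
    rw [one_div_mul_one_div]
    refine one_div_le_one_div_of_le (by positivity) ?_
    nlinarith

/-- the derivative of a Dirichlet series is bounded -/
theorem deriv_DS_le {ι : Type*} {d L : ι → ℝ} (hL : ∀ i, 0 ≤ L i)
    (hs : ∀ t, 1 < t → Summable fun i => |d i| * Real.exp (-(t * L i))) :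
    ∃ M : ℝ, ∀ s : ℂ, 2 ≤ s.re → ‖deriv (DS d L) s‖ ≤ M := by
  have h32 := hs (3 / 2) (by norm_num)
  refine ⟨(∑' i, |d i| * Real.exp (-(3 / 2 * L i))) / (1 / 4), fun s hsr => ?_⟩
  have hre : ∀ z ∈ closedBall s (1 / 4), 3 / 2 ≤ z.re := by
    intro z hz
    rw [mem_closedBall, dist_eq_norm] at hz
    have h1 := abs_re_le_norm (z - s)
    have h2 := neg_abs_le (z - s).re
    rw [sub_re] at h1 h2
    linarith
  refine Complex.norm_deriv_le_of_forall_mem_sphere_norm_le (by norm_num) ?_ fun z hz => ?_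
  · refine DifferentiableOn.diffContOnCl_ball (U := {s : ℂ | 1 < s.re}) (DS_diff (d := d) hL hs) fun z hz => ?_
    have := hre z hz
    show 1 < z.re
    linarith
  · have h1 := hre z (sphere_subset_closedBall hz)
    refine (DS_norm_le (hs z.re (by linarith))).trans ?_
    refine (hs z.re (by linarith)).tsum_le_tsum (fun i => ?_) h32
    have := hL i
    gcongr

variable {n : ℕ} {α : Nat.Primes → Fin n → ℂ} {μ : Fin n → ℂ}

theorem summ_bS (h : SphericalForm α μ) {t : ℝ} (ht : 1 < t) :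
    Summable fun x => |bS α ∅ x| * Real.exp (-(t * ll x)) := by
  refine Summable.of_nonneg_of_le (fun x => by positivity) (fun x => ?_) ((h.summ ht).add (summ_one ht))
  rw [← add_mul]
  refine mul_le_mul_of_nonneg_right ?_ (Real.exp_pos _).le
  have h1 : bS α ∅ x = cRS α x - 1 / ((x.2 : ℝ) + 1) := by
    unfold bS cRS
    rw [if_neg (Finset.notMem_empty _)]
    ring
  rw [h1]
  exact abs_sub _ _

theorem exp_bS' (hn : 2 ≤ n) (h : SphericalForm α μ) {Ξ : ℂ → ℂ} (hC : TP.Compl Ξ) (hΞ : ∀ s : ℂ, 1 < s.re →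
    Ξ s = s * (s - 1) * (∏ i, ∏ j, Gammaℝ (s + (μ i + (starRingEnd ℂ) (μ j)))) * exp (logRS α s)) {s : ℂ}
    (hs : 1 < s.re) : exp (DS (bS α ∅) ll s) * riemannZeta₁ s = dslope (GX Ξ μ) 0 s := by
  rw [exp_bS hC h hn hΞ ∅ hs, Finset.prod_empty, mul_one]
  unfold FF
  have hV0 : riemannZeta₁ s ≠ 0 := by
    have hs1 : s ≠ 1 := by
      intro h0
      rw [h0] at hs
      simp at hs
    have h1 := riemannZeta_ne_zero_of_one_le_re hs.le
    intro h0
    rw [riemannZeta_eq_inv_sub_mul hs1, h0, mul_zero] at h1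
    exact h1 rfl
  rw [div_mul_cancel₀ _ hV0]

/-- **There is a zero of `L(s, φ × φ~)` and of `ζ(s)` with different orders, and with `Re ρ ≥ 1/2`.** -/
theorem exists_rho (hn : 2 ≤ n) (h : SphericalForm α μ) {Ξ : ℂ → ℂ} (hC : TP.Compl Ξ) (hΞ : ∀ s : ℂ, 1 < s.re →
    Ξ s = s * (s - 1) * (∏ i, ∏ j, Gammaℝ (s + (μ i + (starRingEnd ℂ) (μ j)))) * exp (logRS α s)) :
    ∃ ρ : ℂ, 1 / 2 ≤ ρ.re ∧ analyticOrderNatAt (dslope (GX Ξ μ) 0) ρ ≠ analyticOrderNatAt riemannZeta₁ ρ := by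
  classical
  by_contra hcon
  push Not at hcon
  obtain ⟨Z, hZd, hZg, hZfe, hZeq⟩ := zeta_compl
  set U : ℂ → ℂ := dslope (GX Ξ μ) 0 with hU
  have hGd : Differentiable ℂ (GX Ξ μ) := GX_diff hC μ
  have hUd : Differentiable ℂ U := by
    rw [hU, ← differentiableOn_univ, Complex.differentiableOn_dslope Filter.univ_mem, differentiableOn_univ]
    exact hGd
  have hUs : ∀ s, s * U s = Ξ s * JJ μ s := by
    intro s
    have h1 := sub_smul_dslope (GX Ξ μ) 0 s
    rw [(h.GX_zero hC hn).1, sub_zero, sub_zero, smul_eq_mul] at h1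
    exact h1
  have hVd := differentiable_riemannZeta₁
  have hJd := JJ_diff μ
  -- the orders
  have hid0 : ∀ ρ : ℂ, ρ ≠ 0 → analyticOrderAt (fun s : ℂ => s) ρ = 0 := fun ρ hρ =>
    ord_zero (f := fun s => s) differentiable_id hρ
  have hordΞ : ∀ ρ : ℂ, 1 / 2 ≤ ρ.re → JJ μ ρ ≠ 0 → analyticOrderAt Ξ ρ = analyticOrderAt U ρ := by
    intro ρ hρ hJ
    have hρ0 : ρ ≠ 0 := by
      rintro rfl
      simp at hρ
      linarith
    have h1 := ord_mul (f := fun s : ℂ => s) differentiable_id hUd ρ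
    have h2 := ord_mul hC.diff hJd ρ
    rw [hid0 ρ hρ0, zero_add] at h1
    rw [ord_zero hJd hJ, add_zero] at h2
    rw [← h1, ← h2]
    congr 1
    funext s
    exact (hUs s).symm
  have hgd : Differentiable ℂ (fun s : ℂ => (Gammaℝ s)⁻¹) := differentiable_Gammaℝ_inv
  have hordZ : ∀ ρ : ℂ, 1 / 2 ≤ ρ.re → analyticOrderAt Z ρ = analyticOrderAt riemannZeta₁ ρ := by
    intro ρ hρ
    have hρ0 : ρ ≠ 0 := by
      rintro rfl
      simp at hρ
      linarith
    have h1 := ord_mul (f := fun s : ℂ => s) differentiable_id hVd ρ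
    have h2 := ord_mul hZd hgd ρ
    rw [hid0 ρ hρ0, zero_add] at h1
    rw [ord_zero hgd (inv_ne_zero (Gammaℝ_ne_zero_of_re_pos (by linarith))), add_zero] at h2
    rw [← h1, ← h2]
    congr 1
    funext s
    exact hZeq s
  set X0 : Finset ℂ := Finset.univ.image (fun x : Fin n × Fin n => -aa μ x) with hX0
  set X : Finset ℂ := X0 ∪ X0.image (fun z => 1 - z) with hX
  have hJ0 : ∀ ρ : ℂ, 1 / 2 ≤ ρ.re → ρ ∉ X0 → JJ μ ρ ≠ 0 := by
    intro ρ hρ hρX h0
    unfold JJ at h0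
    obtain ⟨x, _, hx⟩ := Finset.prod_eq_zero_iff.1 h0
    rw [inv_eq_zero, Gammaℝ_eq_zero_iff] at hx
    obtain ⟨m, hm⟩ := hx
    have h1 := abs_lt.1 (h.aa_re x)
    have h2 := congrArg re hm
    simp at h2
    have h3 : m = 0 := by
      by_contra h4
      have : (1 : ℝ) ≤ m := by exact_mod_cast Nat.one_le_iff_ne_zero.2 h4
      linarith
    rw [h3] at hm
    simp at hm
    apply hρX
    rw [hX0]
    exact Finset.mem_image.2 ⟨x, Finset.mem_univ _, (eq_neg_of_add_eq_zero_left hm).symm⟩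
  obtain ⟨ω, hω, hfe⟩ := hC.fe
  have hreflΞ : ∀ ρ, analyticOrderAt Ξ ρ = analyticOrderAt Ξ (1 - ρ) := by
    intro ρ
    rw [← ord_refl Ξ ρ]
    have e : (fun s => Ξ (1 - s)) = fun s => (fun _ : ℂ => ω) s * Ξ s := by
      funext s
      exact hfe s
    rw [e, ord_mul (differentiable_const ω) hC.diff, ord_zero (differentiable_const ω) hω, zero_add]
  have hreflZ : ∀ ρ, analyticOrderAt Z ρ = analyticOrderAt Z (1 - ρ) := by
    intro ρ
    rw [← ord_refl Z ρ]
    congr 1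
    funext s
    exact (hZfe s).symm
  have hmain : ∀ ρ ∉ X, analyticOrderNatAt Ξ ρ = analyticOrderNatAt Z ρ := by
    have key : ∀ ρ, 1 / 2 ≤ ρ.re → ρ ∉ X0 → analyticOrderNatAt Ξ ρ = analyticOrderNatAt Z ρ := by
      intro ρ h1 h2
      have h3 := hcon ρ h1
      unfold analyticOrderNatAt at h3 ⊢
      rw [hordΞ ρ h1 (hJ0 ρ h1 h2), hordZ ρ h1, h3]
    intro ρ hρ
    rw [hX, Finset.mem_union, not_or] at hρ
    rcases le_or_gt (1 / 2) ρ.re with h1 | h1
    · exact key ρ h1 hρ.1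
    · have h2 := key (1 - ρ) (by rw [sub_re, one_re]; linarith) (fun h3 => hρ.2 (Finset.mem_image.2 ⟨1 - ρ, h3, by ring⟩))
      unfold analyticOrderNatAt at h2 ⊢
      rw [hreflΞ ρ, hreflZ ρ, h2]
  -- the logarithmic derivatives
  obtain ⟨C, hlog⟩ := logd Bool (fun b => cond b Ξ Z) (by
    intro b
    cases b
    · exact hZd
    · exact hC.diff) (by
    intro b
    cases b
    · refine ⟨2, fun h0 => ?_⟩
      have h1 := hZeq 2
      simp only [cond_false] at h0
      rw [h0, zero_mul] at h1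
      have h2 : riemannZeta₁ 2 ≠ 0 := z1_ne (by rw [mem_closedBall, dist_eq_norm]; norm_num)
      exact (mul_ne_zero two_ne_zero h2) h1.symm
    · exact ⟨2, hC.nz 2 (by norm_num)⟩) (by
    intro b
    cases b
    · exact hZg
    · exact hC.growth) (fun b => cond b 1 (-1)) X (by
    intro ρ hρ
    rw [Fintype.sum_bool]
    simp only [cond_true, cond_false]
    rw [hmain ρ hρ]
    ring)
  set m : ℂ → ℂ := fun x => ((∑ j : Bool, cond j (1 : ℝ) (-1) *
    (analyticOrderNatAt (cond j Ξ Z) x : ℝ) : ℝ) : ℂ) with hm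
  obtain ⟨M, hM⟩ := deriv_DS_le (d := bS α ∅) ll_nonneg (fun t ht => summ_bS h ht)
  obtain ⟨BX, hBX⟩ : ∃ B : ℝ, ∀ x ∈ X, ‖x‖ ≤ B := by
    obtain ⟨B, hB⟩ := (X.finite_toSet.image norm).bddAbove
    exact ⟨B, fun x hx => hB (Set.mem_image_of_mem _ hx)⟩
  obtain ⟨y, hy1, hy2⟩ := gam_grow (fun x : Fin n × Fin n => aa μ x) (by
    rw [Fintype.card_prod, Fintype.card_fin]
    nlinarith) (‖C‖ + ∑ x ∈ X, ‖m x‖ + M + 1) (max 2 (BX + 1))
  have hy2' : 2 ≤ y := (le_max_left _ _).trans hy1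
  have hyB : BX + 1 ≤ y := (le_max_right _ _).trans hy1
  set s : ℂ := (y : ℂ) with hs
  have hsre : 1 < s.re := by rw [hs, ofReal_re]; linarith
  have hs0 : s ≠ 0 := by
    intro h0
    rw [h0] at hsre
    simp at hsre
    linarith
  have hV0 : riemannZeta₁ s ≠ 0 := by
    have hs1 : s ≠ 1 := by
      intro h0
      rw [h0] at hsre
      simp at hsre
    have h1 := riemannZeta_ne_zero_of_one_le_re hsre.le
    intro h0
    rw [riemannZeta_eq_inv_sub_mul hs1, h0, mul_zero] at h1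
    exact h1 rfl
  have hΞ0 : Ξ s ≠ 0 := hC.nz s hsre
  have hZ0 : Z s ≠ 0 := by
    intro h0
    have h1 := hZeq s
    rw [h0, zero_mul] at h1
    exact (mul_ne_zero hs0 hV0) h1.symm
  have hfac : ∀ x : Fin n × Fin n, (Gammaℝ (s + aa μ x))⁻¹ ≠ 0 := by
    intro x
    refine inv_ne_zero (Gammaℝ_ne_zero_of_re_pos ?_)
    have := abs_lt.1 (h.aa_re x)
    rw [add_re]
    linarith
  have hJs : JJ μ s ≠ 0 := by
    unfold JJ
    exact Finset.prod_ne_zero_iff.2 fun x _ => hfac x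
  have hg0 : (Gammaℝ (s + 0))⁻¹ ≠ 0 := by
    rw [add_zero]
    exact inv_ne_zero (Gammaℝ_ne_zero_of_re_pos (by linarith))
  have hU0 : U s ≠ 0 := by
    intro h0
    have h1 := hUs s
    rw [h0, mul_zero] at h1
    exact (mul_ne_zero hΞ0 hJs) h1.symm
  -- the logarithmic derivatives of both sides
  have e1 : logDeriv (fun s : ℂ => s) s + logDeriv U s = logDeriv Ξ s + logDeriv (JJ μ) s := by
    rw [← logDeriv_mul s (f := fun s : ℂ => s) (g := U) hs0 hU0 differentiableAt_id (hUd s),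
      ← logDeriv_mul s (f := Ξ) (g := JJ μ) hΞ0 hJs (hC.diff s) (hJd s)]
    congr 1
    funext s
    exact hUs s
  have hgd' : Differentiable ℂ (fun s : ℂ => (Gammaℝ (s + 0))⁻¹) := by
    simp_rw [add_zero]
    exact differentiable_Gammaℝ_inv
  have e2 : logDeriv (fun s : ℂ => s) s + logDeriv riemannZeta₁ s =
      logDeriv Z s + logDeriv (fun s : ℂ => (Gammaℝ (s + 0))⁻¹) s := by
    rw [← logDeriv_mul s (f := fun s : ℂ => s) (g := riemannZeta₁) hs0 hV0 differentiableAt_id (hVd s),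
      ← logDeriv_mul s (f := Z) (g := fun s : ℂ => (Gammaℝ (s + 0))⁻¹) hZ0 hg0 (hZd s) (hgd' s)]
    congr 1
    funext s
    rw [add_zero]
    exact (hZeq s).symm
  have e3 : logDeriv (JJ μ) s = - ∑ x, logDeriv Gammaℝ (s + aa μ x) := by
    have e1 := logDeriv_prod (s := Finset.univ) (f := fun (x : Fin n × Fin n) (s : ℂ) => (Gammaℝ (s + aa μ x))⁻¹)
      (x := s) (fun x _ => hfac x) (fun x _ => term_diff _ _)
    have e2 : JJ μ = fun s => ∏ x : Fin n × Fin n, (Gammaℝ (s + aa μ x))⁻¹ := rfl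
    rw [e2, e1, ← Finset.sum_neg_distrib]
    exact Finset.sum_congr rfl fun x _ => logDeriv_inv_Gammaℝ _ _ (hfac x)
  have e4 : logDeriv (fun s : ℂ => (Gammaℝ (s + 0))⁻¹) s = - logDeriv Gammaℝ s := by
    rw [logDeriv_inv_Gammaℝ 0 s hg0, add_zero]
  have hopen : IsOpen {s : ℂ | 1 < s.re} := isOpen_lt continuous_const Complex.continuous_re
  have hDd : DifferentiableAt ℂ (DS (bS α ∅) ll) s :=
    (DS_diff (d := bS α ∅) ll_nonneg (fun t ht => summ_bS h ht)).differentiableAt (hopen.mem_nhds hsre)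
  have e5 : logDeriv U s = deriv (DS (bS α ∅) ll) s + logDeriv riemannZeta₁ s := by
    have h1 : U =ᶠ[𝓝 s] fun v => exp (DS (bS α ∅) ll v) * riemannZeta₁ v := by
      filter_upwards [hopen.mem_nhds hsre] with v hv
      exact (exp_bS' hn h hC hΞ hv).symm
    have h2 : logDeriv U s = logDeriv (fun v => exp (DS (bS α ∅) ll v) * riemannZeta₁ v) s := by
      rw [logDeriv_apply, logDeriv_apply, h1.deriv_eq, h1.eq_of_nhds]
    rw [h2, logDeriv_mul (f := fun v => exp (DS (bS α ∅) ll v)) s (exp_ne_zero _) hV0 hDd.cexp (hVd s), logDeriv_apply,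
      hDd.hasDerivAt.cexp.deriv, mul_div_cancel_left₀ _ (exp_ne_zero _)]
  have e6 := hlog s (by
    intro b
    cases b
    · exact hZ0
    · exact hΞ0)
  rw [Fintype.sum_bool] at e6
  simp only [cond_true, cond_false] at e6
  have e7 : (∑ x, logDeriv Gammaℝ (s + aa μ x)) - logDeriv Gammaℝ s =
      C + ∑ x ∈ X, m x / (s - x) - deriv (DS (bS α ∅) ll) s := by
    rw [← e6]
    push_cast
    linear_combination e1 - e2 - e5 + e3 - e4
  have e8 := congrArg re e7
  rw [sub_re] at e8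
  rw [e8] at hy2
  have e9 : ‖C + ∑ x ∈ X, m x / (s - x) - deriv (DS (bS α ∅) ll) s‖ ≤ ‖C‖ + ∑ x ∈ X, ‖m x‖ + M := by
    refine (norm_sub_le _ _).trans (add_le_add ((norm_add_le _ _).trans (add_le_add le_rfl ?_)) (hM s ?_))
    · refine norm_sum_le_of_le _ fun x hx => ?_
      rw [norm_div]
      refine div_le_self (norm_nonneg _) ?_
      have h1 := norm_sub_norm_le s x
      have h2 := hBX x hx
      rw [hs, norm_real, Real.norm_of_nonneg (by linarith)] at h1
      linarith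
    · rw [hs, ofReal_re]
      exact hy2'
  have e10 := re_le_norm (C + ∑ x ∈ X, m x / (s - x) - deriv (DS (bS α ∅) ll) s)
  linarith

end Pool.Agent.H63.T5
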