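import Pool.Graph.R_seed8.W189.TP.Land
import Pool.Agent.H63.T3.Ser
import Pool.Graph.R_pool_sql_team_seeded_1acbe0a2.Y818.FV.LOGD

/-!
# The Taylor coefficients of the logarithm of a quotient of entire functions
-/

set_option autoImplicit false

namespace Pool.Agent.H63.T5

open Complex Filter Topology Metric
open Pool.Agent.W189.TP (DS norm_term summ_mono summ_cplx DS_norm_le DS_diff)
open Pool.Agent.H63.T3
open Pool.Agent.Y818.FV

theorem tc_inv_sub {u : ℂ} (hu : u ≠ 0) (k : ℕ) : tc (fun w : ℂ => 1 / (w - u)) k = -(1 / u) ^ (k + 1) := by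
  have h1 : (fun w : ℂ => 1 / (w - u)) = fun w : ℂ => (1 * w - u)⁻¹ := by
    funext w
    rw [one_div, one_mul]
  unfold tc
  rw [h1, iteratedDeriv_eq_iterate, iter_deriv_inv_linear_sub]
  have h2 : (-1 - (k : ℤ)) = -((k : ℤ) + 1) := by ring
  simp only [mul_zero, zero_sub, one_pow, mul_one]
  rw [h2, zpow_neg, show ((k : ℤ) + 1) = ((k + 1 : ℕ) : ℤ) by push_cast; ring, zpow_natCast]
  have h3 := fac_ne k
  rw [neg_pow u, pow_succ (-1 : ℂ), one_div, inv_pow]
  have h4 : u ^ (k + 1) ≠ 0 := pow_ne_zero _ hu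
  have h5 : ((-1 : ℂ)) ^ k ≠ 0 := pow_ne_zero _ (by norm_num)
  field_simp

theorem tc_sub {f g : ℂ → ℂ} (hf : AnalyticAt ℂ f 0) (hg : AnalyticAt ℂ g 0) (k : ℕ) :
    tc (fun w => f w - g w) k = tc f k - tc g k := by
  unfold tc
  rw [iteratedDeriv_fun_sub hf.contDiffAt hg.contDiffAt, sub_div]

theorem tc_const_mul (c : ℂ) {f : ℂ → ℂ} (hf : AnalyticAt ℂ f 0) (k : ℕ) :
    tc (fun w => c * f w) k = c * tc f k := by
  have h1 : iteratedDeriv k (fun w => c * f w) 0 = c * iteratedDeriv k f 0 :=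
    iteratedDeriv_const_mul c hf.contDiffAt
  unfold tc
  rw [h1, mul_div_assoc]

theorem tc_sum {ι : Type*} (s : Finset ι) {f : ι → ℂ → ℂ} (hf : ∀ i ∈ s, AnalyticAt ℂ (f i) 0) (k : ℕ) :
    tc (fun w => ∑ i ∈ s, f i w) k = ∑ i ∈ s, tc (f i) k := by
  classical
  induction s using Finset.induction_on with
  | empty =>
    simp only [Finset.sum_empty]
    unfold tc
    rw [iteratedDeriv_const]
    simp
  | insert i s hi ih =>
    simp_rw [Finset.sum_insert hi]
    rw [tc_add (hf i (Finset.mem_insert_self _ _)), ih fun j hj => hf j (Finset.mem_insert_of_mem hj)]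
    have := Finset.analyticAt_fun_sum s fun j hj => hf j (Finset.mem_insert_of_mem hj)
    exact this

theorem tc_exp' (a b : ℝ) (k : ℕ) : tc (fun w : ℂ => (a : ℂ) * exp ((b : ℂ) * w)) k = ((a * b ^ k / k.factorial : ℝ) : ℂ) := by
  have h0 : AnalyticAt ℂ (fun w : ℂ => exp ((b : ℂ) * w)) 0 := (analyticAt_const.mul analyticAt_id).cexp
  rw [tc_const_mul _ h0]
  unfold tc
  rw [iteratedDeriv_cexp_const_mul]
  simp
  ring

/-- the Taylor coefficients of a Dirichlet series -/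
theorem tc_DS {ι : Type*} {d L : ι → ℝ} (hL : ∀ i, 0 ≤ L i) {c σ : ℝ} (hc : σ < c)
    (hs : ∀ t, σ < t → Summable fun i => |d i| * Real.exp (-(t * L i))) {k : ℕ}
    (hk : Summable fun i => d i * L i ^ k * Real.exp (-(c * L i))) :
    tc (fun w => DS d L ((c : ℂ) - w)) k = ((((∑' i, d i * L i ^ k * Real.exp (-(c * L i))) / k.factorial : ℝ)) : ℂ) := by
  classical
  set r := (c - σ) / 2 with hr
  have hr0 : 0 < r := by rw [hr]; linarith
  set H : ℂ → ℂ := fun w => DS d L ((c : ℂ) - w) with hH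
  have hre : ∀ w ∈ ball (0 : ℂ) r, c - r ≤ ((c : ℂ) - w).re := by
    intro w hw
    rw [mem_ball_zero_iff] at hw
    have h1 := abs_re_le_norm w
    have h2 := le_abs_self w.re
    simp
    linarith
  have hσ : σ < c - r := by rw [hr]; linarith
  have hHd : DifferentiableOn ℂ H (ball 0 r) := by
    have h1 := DS_diff (d := d) hL hs
    intro w hw
    have h2 : σ < ((c : ℂ) - w).re := hσ.trans_le (hre w hw)
    have h3 : DifferentiableAt ℂ (DS d L) ((c : ℂ) - w) :=
      h1.differentiableAt ((isOpen_lt continuous_const Complex.continuous_re).mem_nhds h2)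
    have h4 : DifferentiableAt ℂ (fun w : ℂ => (c : ℂ) - w) w := by fun_prop
    exact (h3.comp w h4).differentiableWithinAt
  set PF : Finset ι → ℂ → ℂ := fun F w => ∑ i ∈ F, (d i : ℂ) * exp (-(((c : ℂ) - w) * L i)) with hPF
  have hPFd : ∀ F, Differentiable ℂ (PF F) := by
    intro F
    rw [hPF]
    fun_prop
  have hPFc : ∀ F : Finset ι, tc (PF F) k = ((∑ i ∈ F, d i * L i ^ k * Real.exp (-(c * L i)) / k.factorial : ℝ) : ℂ) := by
    intro F
    have h1 : PF F = fun w => ∑ i ∈ F, ((d i * Real.exp (-(c * L i)) : ℝ) : ℂ) * exp ((L i : ℂ) * w) := by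
      funext w
      simp only [hPF]
      refine Finset.sum_congr rfl fun i _ => ?_
      push_cast
      rw [mul_assoc, ← exp_add]
      congr 2
      ring
    have h2 : ∀ i ∈ F, AnalyticAt ℂ ((fun (i : ι) (w : ℂ) => ((d i * Real.exp (-(c * L i)) : ℝ) : ℂ) * exp ((L i : ℂ) * w)) i) 0 :=
      fun i _ => analyticAt_const.mul (analyticAt_const.mul analyticAt_id).cexp
    rw [h1, tc_sum F h2, ofReal_sum]
    refine Finset.sum_congr rfl fun i _ => ?_
    rw [tc_exp']
    congr 1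
    ring
  have hT := hs _ hσ
  have hlim := tendsto_tsum_compl_atTop_zero fun i => |d i| * Real.exp (-((c - r) * L i))
  have hlimk : Tendsto (fun F : Finset ι => tc (PF F) k) atTop (𝓝 (tc H k)) := by
    rw [tendsto_iff_norm_sub_tendsto_zero]
    have h1 : Tendsto (fun F : Finset ι => (∑' i : {i // i ∉ F}, |d i| * Real.exp (-((c - r) * L i))) / (r / 2) ^ k)
        atTop (𝓝 0) := by
      have := hlim.div_const ((r / 2) ^ k)
      rwa [zero_div] at this
    refine squeeze_zero (fun F => norm_nonneg _) (fun F => ?_) h1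
    set E : ℂ → ℂ := fun w => H w - PF F w with hE
    have hEd : DifferentiableOn ℂ E (ball 0 r) := hHd.sub (hPFd F).differentiableOn
    have hEM : ∀ w ∈ ball (0 : ℂ) r, ‖E w‖ ≤ ∑' i : {i // i ∉ F}, |d i| * Real.exp (-((c - r) * L i)) := by
      intro w hw
      have h2 : Summable fun i => (d i : ℂ) * exp (-(((c : ℂ) - w) * L i)) := summ_cplx hL (hre w hw) hT
      have h3 := h2.sum_add_tsum_subtype_compl F
      have h4 : E w = ∑' i : {i // i ∉ F}, (d i : ℂ) * exp (-(((c : ℂ) - w) * L i)) := by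
        rw [hE]
        simp only [hH, hPF]
        unfold DS
        rw [← h3]
        ring
      rw [h4]
      refine tsum_of_norm_bounded (hT.subtype _).hasSum fun i => ?_
      rw [norm_term]
      have h5 := hre w hw
      have h6 := hL i
      simp only [Function.comp_apply]
      gcongr
    have h2 := tc_bound hEd (half_pos hr0) (half_lt_self hr0) hEM k
    have h3 : tc H k = tc E k + tc (PF F) k := by
      rw [← tc_add (hEd.analyticAt (ball_mem_nhds _ hr0)) ((hPFd F).analyticAt 0)]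
      congr 1
      funext w
      simp only [hE]
      ring
    rw [h3, norm_sub_rev, add_sub_cancel_right]
    exact h2
  have hlim2 : Tendsto (fun F : Finset ι => tc (PF F) k) atTop
      (𝓝 ((((∑' i, d i * L i ^ k * Real.exp (-(c * L i))) / k.factorial : ℝ)) : ℂ)) := by
    simp_rw [hPFc]
    refine (continuous_ofReal.tendsto _).comp ?_
    exact (hk.hasSum.div_const _)
  exact tendsto_nhds_unique hlimk hlim2

/-- the divisor part -/
theorem tc_divisor {F : ℂ → ℂ} (hF0 : F 0 ≠ 0) {ρ : ℝ} (hFd : Differentiable ℂ F) (hρ : 0 < ρ) (k : ℕ) :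
    AnalyticAt ℂ (fun w => ∑ᶠ u, logd_D F ρ u * (1 / (w - u))) 0 ∧
    tc (fun w => ∑ᶠ u, logd_D F ρ u * (1 / (w - u))) k = -∑ᶠ u, logd_D F ρ u * (1 / u) ^ (k + 1) := by
  classical
  set S := (logd_support (F := F) ρ).toFinset with hS
  have h0 : (0 : ℂ) ∉ S := by
    rw [hS, Set.Finite.mem_toFinset, Function.mem_support, not_not, logd_in hFd hF0 (mem_closedBall_self hρ.le)]
    rw [analyticOrderNatAt, (hFd.analyticAt 0).analyticOrderAt_eq_zero.2 hF0]
    simp
  have hne : ∀ u ∈ S, u ≠ 0 := fun u hu h => h0 (h ▸ hu)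
  have h1 : (fun w => ∑ᶠ u, logd_D F ρ u * (1 / (w - u))) = fun w => ∑ u ∈ S, logd_D F ρ u * (1 / (w - u)) := by
    funext w
    refine finsum_eq_sum_of_support_subset _ fun u hu => ?_
    rw [hS, Set.Finite.coe_toFinset, Function.mem_support]
    intro h
    rw [Function.mem_support] at hu
    exact hu (by rw [h, zero_mul])
  have h2 : ∑ᶠ u, logd_D F ρ u * (1 / u) ^ (k + 1) = ∑ u ∈ S, logd_D F ρ u * (1 / u) ^ (k + 1) := by
    refine finsum_eq_sum_of_support_subset _ fun u hu => ?_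
    rw [hS, Set.Finite.coe_toFinset, Function.mem_support]
    intro h
    rw [Function.mem_support] at hu
    exact hu (by rw [h, zero_mul])
  have h3 : ∀ u ∈ S, AnalyticAt ℂ (fun w : ℂ => 1 / (w - u)) 0 := by
    intro u hu
    refine analyticAt_const.div (analyticAt_id.sub analyticAt_const) ?_
    simpa using hne u hu
  refine ⟨?_, ?_⟩
  · rw [h1]
    exact Finset.analyticAt_fun_sum S fun u hu => analyticAt_const.mul (h3 u hu)
  · rw [h1, h2, tc_sum S (f := fun u w => logd_D F ρ u * (1 / (w - u))) fun u hu => analyticAt_const.mul (h3 u hu),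
      ← Finset.sum_neg_distrib]
    refine Finset.sum_congr rfl fun u hu => ?_
    rw [tc_const_mul _ (h3 u hu), tc_inv_sub (hne u hu)]
    ring

/-- the logarithmic derivative of an entire function -/
theorem tc_logDeriv {F : ℂ → ℂ} (hFd : Differentiable ℂ F) (hF0 : F 0 ≠ 0) {ρ r : ℝ} (hr : 0 < r) (hrρ : r < ρ) :
    ∃ C : ℝ, 0 ≤ C ∧ ∀ k : ℕ, ‖tc (logDeriv F) k + ∑ᶠ u, logd_D F ρ u * (1 / u) ^ (k + 1)‖ ≤ C / r ^ k := by
  have hρ : 0 < ρ := hr.trans hrρ
  obtain ⟨M, hM⟩ : ∃ M : ℝ, ∀ w ∈ closedBall (0 : ℂ) (2 * ρ), ‖F w‖ ≤ Real.exp M := by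
    obtain ⟨B, hB⟩ := (isCompact_closedBall (0 : ℂ) (2 * ρ)).exists_bound_of_continuousOn hFd.continuous.continuousOn
    refine ⟨Real.log (|B| + 1), fun w hw => ?_⟩
    rw [Real.exp_log (by positivity)]
    have := hB w hw
    have h2 := le_abs_self B
    linarith
  obtain ⟨n, hn⟩ := exists_nat_ge (∑ᶠ u, (MeromorphicOn.divisor F (closedBall 0 ρ) u : ℝ) * 1)
  obtain ⟨G, hG, hG0, hGb, hGnz, hlog⟩ := logd_split hρ n F hFd hF0 hM hn
  set ρ' := (r + ρ) / 2 with hρ'
  have h1 : r < ρ' := by rw [hρ']; linarith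
  have h2 : ρ' < ρ := by rw [hρ']; linarith
  have hGd : DifferentiableOn ℂ (logDeriv G) (ball 0 ρ) := by
    unfold logDeriv
    refine DifferentiableOn.div ?_ hG.differentiableOn fun u hu => hGnz u (ball_subset_closedBall hu)
    exact (hG.contDiff (n := 2)).differentiable_deriv_two.differentiableOn
  obtain ⟨B, hB⟩ := (isCompact_closedBall (0 : ℂ) ρ').exists_bound_of_continuousOn
    (hGd.continuousOn.mono (closedBall_subset_ball h2))
  refine ⟨|B|, abs_nonneg _, fun k => ?_⟩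
  have h3 := tc_bound (hGd.mono (ball_subset_ball h2.le)) hr h1
    (fun z hz => (hB z (ball_subset_closedBall hz)).trans (le_abs_self B)) k
  obtain ⟨h4, h5⟩ := tc_divisor hF0 hFd hρ k
  have h6 : logDeriv F =ᶠ[𝓝 0] fun w => (∑ᶠ u, logd_D F ρ u * (1 / (w - u))) + logDeriv G w := by
    filter_upwards [hFd.continuous.continuousAt.eventually_ne hF0] with w hw
    exact hlog w hw
  rw [tc_congr h6, tc_add h4 (hGd.analyticAt (ball_mem_nhds _ hρ)), h5]
  have h7 : -(∑ᶠ u, logd_D F ρ u * (1 / u) ^ (k + 1)) + tc (logDeriv G) k +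
      ∑ᶠ u, logd_D F ρ u * (1 / u) ^ (k + 1) = tc (logDeriv G) k := by ring
  rw [h7]
  exact h3

/-- **The expansion.** -/
theorem expansion {ι : Type*} {d L : ι → ℝ} (hL : ∀ i, 0 ≤ L i)
    (hs : ∀ t, 1 < t → Summable fun i => |d i| * Real.exp (-(t * L i))) {U V : ℂ → ℂ}
    (hU : Differentiable ℂ U) (hV : Differentiable ℂ V)
    (hid : ∀ s : ℂ, 1 < s.re → exp (DS d L s) * V s = U s) {s0 : ℝ} (hs0 : 1 < s0) (hV0 : V s0 ≠ 0)
    {ρ r : ℝ} (hr : 0 < r) (hrρ : r < ρ)
    (hk : ∀ k : ℕ, Summable fun i => d i * L i ^ k * Real.exp (-(s0 * L i))) :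
    ∃ C : ℝ, 0 ≤ C ∧ ∀ k : ℕ, 1 ≤ k →
      ‖((k * ((∑' i, d i * L i ^ k * Real.exp (-(s0 * L i))) / k.factorial) : ℝ) : ℂ) +
        (∑ᶠ u, logd_D (fun w => U ((s0 : ℂ) - w)) ρ u * (1 / u) ^ k -
        ∑ᶠ u, logd_D (fun w => V ((s0 : ℂ) - w)) ρ u * (1 / u) ^ k)‖ ≤ C / r ^ k := by
  set F : ℂ → ℂ := fun w => U ((s0 : ℂ) - w) with hF
  set H : ℂ → ℂ := fun w => V ((s0 : ℂ) - w) with hH
  have hlin : Differentiable ℂ (fun w : ℂ => (s0 : ℂ) - w) := by fun_prop
  have hFd : Differentiable ℂ F := hU.comp hlin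
  have hHd : Differentiable ℂ H := hV.comp hlin
  have hH0 : H 0 ≠ 0 := by simpa [hH] using hV0
  have hF0 : F 0 ≠ 0 := by
    have h1 := hid s0 (by simpa using hs0)
    simp only [hF, sub_zero]
    rw [← h1]
    exact mul_ne_zero (exp_ne_zero _) hV0
  obtain ⟨C1, hC1, h1⟩ := tc_logDeriv hFd hF0 hr hrρ
  obtain ⟨C2, hC2, h2⟩ := tc_logDeriv hHd hH0 hr hrρ
  refine ⟨(C1 + C2) * r, by positivity, fun k hk1 => ?_⟩
  obtain ⟨j, rfl⟩ := Nat.exists_eq_add_of_le' hk1
  set f : ℂ → ℂ := fun w => DS d L ((s0 : ℂ) - w) with hf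
  have hfan : ∀ w : ℂ, 1 < ((s0 : ℂ) - w).re → DifferentiableAt ℂ f w := by
    intro w hw
    have h3 : DifferentiableAt ℂ (DS d L) ((s0 : ℂ) - w) :=
      (DS_diff (d := d) hL hs).differentiableAt ((isOpen_lt continuous_const Complex.continuous_re).mem_nhds hw)
    exact h3.comp w (hlin w)
  have hev : ∀ᶠ w : ℂ in 𝓝 0, 1 < ((s0 : ℂ) - w).re := by
    have hc : ContinuousAt (fun w : ℂ => ((s0 : ℂ) - w).re) 0 := by fun_prop
    exact hc.eventually (lt_mem_nhds (by simpa using hs0))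
  have hfA : AnalyticAt ℂ f 0 := by
    rw [Complex.analyticAt_iff_eventually_differentiableAt]
    exact hev.mono fun w hw => hfan w hw
  have h3 : deriv f =ᶠ[𝓝 0] fun w => logDeriv F w - logDeriv H w := by
    filter_upwards [hev, hHd.continuous.continuousAt.eventually_ne hH0, hev.eventually_nhds] with w hw hHw hw2
    have h4 : F =ᶠ[𝓝 w] fun v => exp (f v) * H v := by
      filter_upwards [hw2] with v hv
      exact (hid _ hv).symm
    have h5 : DifferentiableAt ℂ (fun v => exp (f v)) w := (hfan w hw).cexp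
    have h6 : logDeriv F w = logDeriv (fun v => exp (f v) * H v) w := by
      rw [logDeriv_apply, logDeriv_apply, h4.deriv_eq, h4.eq_of_nhds]
    rw [h6, logDeriv_mul (f := fun v => exp (f v)) w (exp_ne_zero (f w)) hHw h5 (hHd w), add_sub_cancel_right, logDeriv_apply,
      ((hfan w hw).hasDerivAt.cexp).deriv, mul_div_cancel_left₀ _ (exp_ne_zero _)]
  have h4 : tc (deriv f) j = tc (logDeriv F) j - tc (logDeriv H) j := by
    have hA : ∀ G : ℂ → ℂ, Differentiable ℂ G → G 0 ≠ 0 → AnalyticAt ℂ (logDeriv G) 0 := by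
      intro G hG hG0
      exact (hG.analyticAt 0).deriv.div (hG.analyticAt 0) hG0
    rw [tc_congr h3, tc_sub (hA F hFd hF0) (hA H hHd hH0)]
  rw [tc_deriv, tc_DS hL hs0 hs (hk (j + 1))] at h4
  have h5 : (((((j + 1 : ℕ) : ℝ) * ((∑' i, d i * L i ^ (j + 1) * Real.exp (-(s0 * L i))) /
      (j + 1).factorial) : ℝ)) : ℂ) = tc (logDeriv F) j - tc (logDeriv H) j := by
    rw [← h4]
    push_cast
    ring
  rw [h5]
  have h6 : tc (logDeriv F) j - tc (logDeriv H) j + (∑ᶠ u, logd_D F ρ u * (1 / u) ^ (j + 1) -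
      ∑ᶠ u, logd_D H ρ u * (1 / u) ^ (j + 1)) = (tc (logDeriv F) j + ∑ᶠ u, logd_D F ρ u * (1 / u) ^ (j + 1)) -
      (tc (logDeriv H) j + ∑ᶠ u, logd_D H ρ u * (1 / u) ^ (j + 1)) := by ring
  rw [h6]
  refine (norm_sub_le _ _).trans ?_
  have h7 := h1 j
  have h8 := h2 j
  have h9 : (C1 + C2) * r / r ^ (j + 1) = C1 / r ^ j + C2 / r ^ j := by
    rw [pow_succ]
    field_simp
  rw [h9]
  linarith

end Pool.Agent.H63.T5
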