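import Mathlib

/-!
# The weights `v ^ k exp (-s v) / k!` are concentrated near `v = k / s`
-/

set_option autoImplicit false

namespace Pool.Agent.H63.T5

theorem xe_mono {x x0 : ℝ} (h0 : 0 < x0) (h : 0 ≤ (x0 - x) * (1 - x0)) :
    x * Real.exp (-x) ≤ x0 * Real.exp (-x0) := by
  have h1 := Real.add_one_le_exp (x - x0)
  have h2 : x ≤ x0 * Real.exp (x - x0) := by nlinarith
  calc x * Real.exp (-x) ≤ (x0 * Real.exp (x - x0)) * Real.exp (-x) := by gcongr
    _ = x0 * Real.exp (-x0) := by rw [mul_assoc, ← Real.exp_add]; congr 2; ring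

/-- the trivial bound -/
theorem pow_exp_le {a v : ℝ} (ha : 0 < a) (hv : 0 ≤ v) (k : ℕ) :
    v ^ k * Real.exp (-(a * v)) ≤ k.factorial / a ^ k := by
  have h1 := Real.pow_div_factorial_le_exp (a * v) (by positivity) k
  have h2 : (0 : ℝ) < k.factorial := by exact_mod_cast k.factorial_pos
  rw [div_le_iff₀ h2, mul_pow] at h1
  rw [le_div_iff₀ (by positivity), Real.exp_neg]
  have h3 := Real.exp_pos (a * v)
  rw [mul_assoc, mul_comm, mul_assoc]
  rw [inv_mul_le_iff₀ h3]
  linarith

/-- away from the peak -/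
theorem pow_exp_le_tail {a b v x0 : ℝ} {k : ℕ} (ha : 0 < a) (hb : 0 < b) (hk : 1 ≤ k) (hv : 0 ≤ v) (hx0 : 0 < x0)
    (hx : 0 ≤ (x0 - a * v / k) * (1 - x0)) (hτ : x0 * Real.exp (1 - x0) ≤ a / b) :
    v ^ k * Real.exp (-(a * v)) ≤ k.factorial / b ^ k := by
  have hk0 : (0 : ℝ) < k := by exact_mod_cast hk
  have h1 := xe_mono hx0 hx
  have h2 : v ^ k * Real.exp (-(a * v)) = ((k : ℝ) / a) ^ k * ((a * v / k) * Real.exp (-(a * v / k))) ^ k := by
    rw [mul_pow, ← Real.exp_nat_mul, ← mul_assoc, ← mul_pow]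
    congr 2
    · field_simp
    · field_simp
  have h3 : x0 * Real.exp (-x0) ≤ a / b * Real.exp (-1) := by
    have : x0 * Real.exp (-x0) = (x0 * Real.exp (1 - x0)) * Real.exp (-1) := by
      rw [mul_assoc, ← Real.exp_add]
      congr 2
      ring
    rw [this]
    gcongr
  have h4 : 0 ≤ (a * v / k) * Real.exp (-(a * v / k)) := by positivity
  have h5 : ((a * v / k) * Real.exp (-(a * v / k))) ^ k ≤ (a / b * Real.exp (-1)) ^ k :=
    pow_le_pow_left₀ h4 (h1.trans h3) k
  have h6 := Real.pow_div_factorial_le_exp (k : ℝ) hk0.le k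
  have h7 : (0 : ℝ) < k.factorial := by exact_mod_cast k.factorial_pos
  rw [div_le_iff₀ h7] at h6
  calc v ^ k * Real.exp (-(a * v)) = ((k : ℝ) / a) ^ k * ((a * v / k) * Real.exp (-(a * v / k))) ^ k := h2
    _ ≤ ((k : ℝ) / a) ^ k * (a / b * Real.exp (-1)) ^ k := by gcongr
    _ = ((k : ℝ) ^ k * Real.exp (-(k : ℝ))) / b ^ k := by
        rw [mul_pow, ← Real.exp_nat_mul, div_pow, div_pow]
        field_simp
    _ ≤ (Real.exp k * k.factorial * Real.exp (-(k : ℝ))) / b ^ k := by gcongr
    _ = _ := by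
        rw [mul_right_comm, ← Real.exp_add, add_neg_cancel, Real.exp_zero, one_mul]

open Classical in
/-- the negative part in a window -/
noncomputable def win {ι : Type*} (d L : ι → ℝ) (σ η T : ℝ) (i : ι) : ℝ :=
  if (1 - η) * T < L i ∧ L i ≤ T then max (-d i) 0 * Real.exp (-(σ * L i)) else 0

theorem win_nonneg {ι : Type*} (d L : ι → ℝ) (σ η T : ℝ) (i : ι) : 0 ≤ win d L σ η T i := by
  unfold win
  split_ifs <;> positivity

theorem win_summable {ι : Type*} {d L : ι → ℝ} (hL : ∀ i, 0 ≤ L i)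
    (hB : Summable fun i => |d i| * Real.exp (-(2 * L i))) {σ : ℝ} (hσ : σ ≤ 2) (η T : ℝ) :
    Summable (win d L σ η T) := by
  refine Summable.of_nonneg_of_le (win_nonneg d L σ η T) (fun i => ?_) (hB.mul_right (Real.exp ((2 - σ) * |T|)))
  unfold win
  split_ifs with h
  · have h1 : max (-d i) 0 ≤ |d i| := max_le (neg_le_abs _) (abs_nonneg _)
    rw [mul_assoc, ← Real.exp_add]
    have h2 : Real.exp (-(σ * L i)) ≤ Real.exp (-(2 * L i) + (2 - σ) * |T|) := by
      refine Real.exp_le_exp.2 ?_
      have h3 := hL i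
      have h4 : L i ≤ |T| := h.2.trans (le_abs_self T)
      nlinarith
    gcongr
  · positivity

/-- **The lower bound of the weighted sums.** -/
theorem tail_low {ι : Type*} {d L : ι → ℝ} (hL : ∀ i, 0 ≤ L i)
    (hB : Summable fun i => |d i| * Real.exp (-(2 * L i))) {s0 σ η y T : ℝ} {k : ℕ} (hs0 : 2 < s0) (hσ : σ ≤ 2)
    (hy0 : 0 < y) (hy1 : y < 1) (hτ1 : (1 - y) * Real.exp y ≤ (s0 - 2) / (s0 - σ))
    (hτ2 : (1 + y) * Real.exp (-y) ≤ (s0 - 2) / (s0 - σ)) (hk : 1 ≤ k)
    (h1 : (1 - η) * T ≤ (1 - y) * (k / (s0 - 2))) (h2 : (1 + y) * (k / (s0 - 2)) ≤ T)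
    (hw : ∑' i, win d L σ η T i ≤ 1) :
    Summable (fun i => d i * L i ^ k * Real.exp (-(s0 * L i))) ∧
    -((1 + ∑' i, |d i| * Real.exp (-(2 * L i))) * (k.factorial / (s0 - σ) ^ k)) ≤
      ∑' i, d i * L i ^ k * Real.exp (-(s0 * L i)) := by
  have ha : 0 < s0 - 2 := by linarith
  have hb : 0 < s0 - σ := by linarith
  have hk0 : (0 : ℝ) < k := by exact_mod_cast hk
  have hsum : Summable (fun i => d i * L i ^ k * Real.exp (-(s0 * L i))) := by
    refine Summable.of_norm_bounded (hB.mul_right (k.factorial / (s0 - 2) ^ k)) fun i => ?_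
    have h3 := hL i
    rw [norm_mul, norm_mul, Real.norm_eq_abs, Real.norm_of_nonneg (Real.exp_pos _).le,
      Real.norm_of_nonneg (by positivity : 0 ≤ L i ^ k)]
    have h4 := pow_exp_le ha h3 k
    calc |d i| * L i ^ k * Real.exp (-(s0 * L i)) =
        |d i| * Real.exp (-(2 * L i)) * (L i ^ k * Real.exp (-((s0 - 2) * L i))) := by
          have : Real.exp (-(s0 * L i)) = Real.exp (-(2 * L i)) * Real.exp (-((s0 - 2) * L i)) := by
            rw [← Real.exp_add]; congr 1; ring
          rw [this]; ring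
      _ ≤ _ := by gcongr
  refine ⟨hsum, ?_⟩
  have hterm : ∀ i, -((win d L σ η T i + |d i| * Real.exp (-(2 * L i))) * (k.factorial / (s0 - σ) ^ k)) ≤
      d i * L i ^ k * Real.exp (-(s0 * L i)) := by
    intro i
    have h3 := hL i
    have hkf : (0 : ℝ) ≤ k.factorial / (s0 - σ) ^ k := by positivity
    have hwn := win_nonneg d L σ η T i
    have hdn : 0 ≤ |d i| * Real.exp (-(2 * L i)) := by positivity
    have hneg : -(max (-d i) 0 * (L i ^ k * Real.exp (-(s0 * L i)))) ≤ d i * L i ^ k * Real.exp (-(s0 * L i)) := by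
      have h4 : -max (-d i) 0 ≤ d i := by
        have := le_max_left (-d i) 0
        linarith
      have h5 : 0 ≤ L i ^ k * Real.exp (-(s0 * L i)) := by positivity
      nlinarith
    refine le_trans (neg_le_neg ?_) hneg
    by_cases hin : (1 - η) * T < L i ∧ L i ≤ T
    · have h4 := pow_exp_le hb h3 k
      have h5 : win d L σ η T i = max (-d i) 0 * Real.exp (-(σ * L i)) := by
        unfold win
        rw [if_pos hin]
      calc max (-d i) 0 * (L i ^ k * Real.exp (-(s0 * L i))) =
          max (-d i) 0 * Real.exp (-(σ * L i)) * (L i ^ k * Real.exp (-((s0 - σ) * L i))) := by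
            have : Real.exp (-(s0 * L i)) = Real.exp (-(σ * L i)) * Real.exp (-((s0 - σ) * L i)) := by
              rw [← Real.exp_add]; congr 1; ring
            rw [this]; ring
        _ ≤ max (-d i) 0 * Real.exp (-(σ * L i)) * (k.factorial / (s0 - σ) ^ k) := by gcongr
        _ ≤ _ := by
            rw [← h5]
            gcongr
            linarith
    · have h4 : L i ^ k * Real.exp (-((s0 - 2) * L i)) ≤ k.factorial / (s0 - σ) ^ k := by
        rw [not_and_or] at hin
        push Not at hin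
        rcases hin with hin | hin
        · have h6 : (s0 - 2) * L i / k ≤ 1 - y := by
            rw [div_le_iff₀ hk0]
            have h7 : L i ≤ (1 - y) * (k / (s0 - 2)) := hin.trans h1
            calc (s0 - 2) * L i ≤ (s0 - 2) * ((1 - y) * (k / (s0 - 2))) := by gcongr
              _ = _ := by field_simp
          refine pow_exp_le_tail ha hb hk h3 (x0 := 1 - y) (by linarith) ?_ ?_
          · exact mul_nonneg (by linarith) (by linarith)
          · have : 1 - (1 - y) = y := by ring
            rw [this]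
            exact hτ1
        · have h6 : 1 + y ≤ (s0 - 2) * L i / k := by
            rw [le_div_iff₀ hk0]
            have h7 : (1 + y) * (k / (s0 - 2)) ≤ L i := h2.trans hin.le
            calc (1 + y) * k = (s0 - 2) * ((1 + y) * (k / (s0 - 2))) := by field_simp
              _ ≤ _ := by gcongr
          refine pow_exp_le_tail ha hb hk h3 (x0 := 1 + y) (by linarith) ?_ ?_
          · nlinarith
          · have : 1 - (1 + y) = -y := by ring
            rw [this]
            exact hτ2
      have h1' : max (-d i) 0 ≤ |d i| := max_le (neg_le_abs _) (abs_nonneg _)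
      calc max (-d i) 0 * (L i ^ k * Real.exp (-(s0 * L i))) =
          max (-d i) 0 * Real.exp (-(2 * L i)) * (L i ^ k * Real.exp (-((s0 - 2) * L i))) := by
            have : Real.exp (-(s0 * L i)) = Real.exp (-(2 * L i)) * Real.exp (-((s0 - 2) * L i)) := by
              rw [← Real.exp_add]; congr 1; ring
            rw [this]; ring
        _ ≤ |d i| * Real.exp (-(2 * L i)) * (k.factorial / (s0 - σ) ^ k) := by gcongr
        _ ≤ _ := by
            gcongr
            linarith
  have hws := win_summable hL hB hσ η T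
  have h5 := (((hws.add hB).mul_right (k.factorial / (s0 - σ) ^ k)).neg).tsum_le_tsum hterm hsum
  rw [tsum_neg, tsum_mul_right, hws.tsum_add hB] at h5
  refine le_trans (neg_le_neg ?_) h5
  have hkf : (0 : ℝ) ≤ k.factorial / (s0 - σ) ^ k := by positivity
  gcongr

end Pool.Agent.H63.T5
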