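import Pool.Agent.H63.T5.OneSided
import Pool.Agent.H63.T5.Tail
import Pool.Agent.H63.T5.Expand

/-!
# A local form of Landau's lemma
-/

set_option autoImplicit false

namespace Pool.Agent.H63.T5

open Complex Filter Topology Metric
open Pool.Agent.W189.TP (DS)
open Pool.Agent.Y818.FV

theorem wsum_summable {ι : Type*} {d L : ι → ℝ} (hL : ∀ i, 0 ≤ L i)
    (hB : Summable fun i => |d i| * Real.exp (-(2 * L i))) {s0 : ℝ} (hs0 : 2 < s0) (k : ℕ) :
    Summable (fun i => d i * L i ^ k * Real.exp (-(s0 * L i))) := by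
  have ha : 0 < s0 - 2 := by linarith
  refine Summable.of_norm_bounded (hB.mul_right (k.factorial / (s0 - 2) ^ k)) fun i => ?_
  have h3 := hL i
  rw [norm_mul, norm_mul, Real.norm_eq_abs, Real.norm_of_nonneg (Real.exp_pos _).le,
    Real.norm_of_nonneg (by positivity : 0 ≤ L i ^ k)]
  have h4 := pow_exp_le ha h3 k
  calc |d i| * L i ^ k * Real.exp (-(s0 * L i)) =
      |d i| * Real.exp (-(2 * L i)) * (L i ^ k * Real.exp (-((s0 - 2) * L i))) := by
        have : Real.exp (-(s0 * L i)) = Real.exp (-(2 * L i)) * Real.exp (-((s0 - 2) * L i)) := by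
          rw [← Real.exp_add]; congr 1; ring
        rw [this]; ring
    _ ≤ _ := by gcongr

theorem ord_shift (f : ℂ → ℂ) (a z : ℂ) :
    analyticOrderAt (fun w => f (a - w)) z = analyticOrderAt f (a - z) := by
  have hg : AnalyticAt ℂ (fun s : ℂ => a - s) z := by fun_prop
  have hd : deriv (fun s : ℂ => a - s) z ≠ 0 := by
    have : HasDerivAt (fun s : ℂ => a - s) (-1) z := by
      simpa using (hasDerivAt_id z).const_sub (a : ℂ)
    rw [this.deriv]
    norm_num
  exact analyticOrderAt_comp_of_deriv_ne_zero (f := f) hg hd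

/-- the choice of the centre -/
theorem exists_centre {σ y : ℝ} (hy0 : 0 < y) {ρ0 : ℂ} (hρ0 : σ < ρ0.re) :
    ∃ s0 : ℝ, 2 < s0 ∧ ‖(s0 : ℂ) - ρ0‖ < s0 - σ ∧ (1 - y) * Real.exp y ≤ (s0 - 2) / (s0 - σ) ∧
      (1 + y) * Real.exp (-y) ≤ (s0 - 2) / (s0 - σ) := by
  have hκ : ∀ κ : ℝ, κ < 1 → ∀ᶠ s0 : ℝ in atTop, κ ≤ (s0 - 2) / (s0 - σ) := by
    intro κ hκ
    filter_upwards [eventually_gt_atTop σ, eventually_ge_atTop (σ + (2 - σ) / (1 - κ))] with s h1 h2
    have h3 : 0 < s - σ := by linarith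
    have h4 : 0 < 1 - κ := by linarith
    rw [le_div_iff₀ h3]
    have h5 : (2 - σ) / (1 - κ) ≤ s - σ := by linarith
    rw [div_le_iff₀ h4] at h5
    linarith
  have h1 : (1 - y) * Real.exp y < 1 := by
    have h2 : 1 - y < Real.exp (-y) := by
      have := Real.add_one_lt_exp (x := -y) (by linarith)
      linarith
    calc (1 - y) * Real.exp y < Real.exp (-y) * Real.exp y := by gcongr
      _ = 1 := by rw [← Real.exp_add, neg_add_cancel, Real.exp_zero]
  have h2 : (1 + y) * Real.exp (-y) < 1 := by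
    have h2 : 1 + y < Real.exp y := by
      have := Real.add_one_lt_exp (x := y) (by linarith)
      linarith
    calc (1 + y) * Real.exp (-y) < Real.exp y * Real.exp (-y) := by gcongr
      _ = 1 := by rw [← Real.exp_add, add_neg_cancel, Real.exp_zero]
  have h3 : ∀ᶠ s0 : ℝ in atTop, ‖(s0 : ℂ) - ρ0‖ < s0 - σ := by
    have h4 : 0 < ρ0.re - σ := by linarith
    filter_upwards [eventually_gt_atTop σ, eventually_gt_atTop ((ρ0.im ^ 2 / (ρ0.re - σ) + ρ0.re + σ) / 2)] with s h5 h6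
    have h7 : 0 < s - σ := by linarith
    refine lt_of_pow_lt_pow_left₀ 2 h7.le ?_
    rw [Complex.sq_norm, Complex.normSq_apply]
    simp only [Complex.sub_re, Complex.ofReal_re, Complex.sub_im, Complex.ofReal_im, zero_sub]
    have h8 : ρ0.im ^ 2 / (ρ0.re - σ) < 2 * s - ρ0.re - σ := by
      have := (div_lt_iff₀ (by norm_num : (0 : ℝ) < 2)).1 h6
      linarith
    rw [div_lt_iff₀ h4] at h8
    nlinarith
  obtain ⟨s0, h4, h5, h6, h7⟩ := ((eventually_gt_atTop (2 : ℝ)).and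
    (h3.and ((hκ _ h1).and (hκ _ h2)))).exists
  exact ⟨s0, h4, h5, h6, h7⟩

/-- **Local form of Landau's lemma.** -/
theorem local_landau {ι : Type*} {d L : ι → ℝ} (hL : ∀ i, 0 ≤ L i)
    (hs : ∀ t, 1 < t → Summable fun i => |d i| * Real.exp (-(t * L i))) {U V : ℂ → ℂ}
    (hU : Differentiable ℂ U) (hV : Differentiable ℂ V)
    (hid : ∀ s : ℂ, 1 < s.re → exp (DS d L s) * V s = U s) {σ η : ℝ} (hσ : σ < 2) (hη : 0 < η)
    (hVne : ∀ t : ℝ, σ < t → V t ≠ 0) {ρ0 : ℂ} (hρ0 : σ < ρ0.re)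
    (hord : analyticOrderNatAt U ρ0 ≠ analyticOrderNatAt V ρ0)
    (hwin : ∀ T0 : ℝ, ∃ T, T0 ≤ T ∧ ∑' i, win d L σ η T i ≤ 1) : False := by
  classical
  set y : ℝ := min (η / 4) (1 / 2) with hy
  have hy0 : 0 < y := lt_min (by linarith) (by norm_num)
  have hy1 : y < 1 := (min_le_right _ _).trans_lt (by norm_num)
  have hyη : y ≤ η / 4 := min_le_left _ _
  obtain ⟨s0, hs0, hdist, hτ1, hτ2⟩ := exists_centre hy0 hρ0
  obtain ⟨r, hr1, hr2⟩ := exists_between hdist
  set ρ : ℝ := s0 - σ with hρ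
  have hr0 : 0 < r := (norm_nonneg _).trans_lt hr1
  have hρ0' : 0 < ρ := hr0.trans hr2
  have hB := hs 2 (by norm_num)
  set B : ℝ := ∑' i, |d i| * Real.exp (-(2 * L i)) with hBdef
  have hB0 : 0 ≤ B := tsum_nonneg fun i => by positivity
  have hVs0 : V s0 ≠ 0 := hVne s0 (by linarith)
  obtain ⟨C1, hC1, hexp⟩ := expansion hL hs hU hV hid (by linarith : 1 < s0) hVs0 hr0 hr2
    (wsum_summable hL hB hs0)
  set F : ℂ → ℂ := fun w => U ((s0 : ℂ) - w) with hF
  set H : ℂ → ℂ := fun w => V ((s0 : ℂ) - w) with hH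
  have hlin : Differentiable ℂ (fun w : ℂ => (s0 : ℂ) - w) := by fun_prop
  have hFd : Differentiable ℂ F := hU.comp hlin
  have hHd : Differentiable ℂ H := hV.comp hlin
  have hH0 : H 0 ≠ 0 := by simpa [hH] using hVs0
  have hF0 : F 0 ≠ 0 := by
    have h1 := hid s0 (by simpa using (by linarith : 1 < s0))
    simp only [hF, sub_zero]
    rw [← h1]
    exact mul_ne_zero (exp_ne_zero _) hVs0
  set D : ℂ → ℤ := fun u => MeromorphicOn.divisor F (closedBall 0 ρ) u - MeromorphicOn.divisor H (closedBall 0 ρ) u with hD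
  have hDc : ∀ u, ((D u : ℤ) : ℂ) = logd_D F ρ u - logd_D H ρ u := by
    intro u
    simp only [hD, logd_D]
    push_cast
    ring
  set S : Finset ℂ := (logd_support (F := F) ρ).toFinset ∪ (logd_support (F := H) ρ).toFinset with hS
  set P : Finset ℂ := S.filter fun u => D u ≠ 0 with hP
  have hmemP : ∀ u, D u ≠ 0 → u ∈ P := by
    intro u hu
    rw [hP, Finset.mem_filter, hS, Finset.mem_union, Set.Finite.mem_toFinset, Set.Finite.mem_toFinset,
      Function.mem_support, Function.mem_support]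
    refine ⟨?_, hu⟩
    by_contra hcon
    push Not at hcon
    apply hu
    have := hDc u
    rw [hcon.1, hcon.2, sub_zero] at this
    exact_mod_cast this
  have hPD : ∀ u ∈ P, D u ≠ 0 := fun u hu => (Finset.mem_filter.1 hu).2
  have hsum : ∀ k : ℕ, (∑ᶠ u, logd_D F ρ u * (1 / u) ^ k - ∑ᶠ u, logd_D H ρ u * (1 / u) ^ k) =
      ∑ u ∈ P, (D u : ℂ) * (1 / u) ^ k := by
    intro k
    have h1 : ∑ᶠ u, logd_D F ρ u * (1 / u) ^ k = ∑ u ∈ S, logd_D F ρ u * (1 / u) ^ k := by
      refine finsum_eq_sum_of_support_subset _ fun u hu => ?_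
      rw [hS, Finset.coe_union, Set.Finite.coe_toFinset, Set.Finite.coe_toFinset]
      left
      rw [Function.mem_support]
      intro h
      rw [Function.mem_support] at hu
      exact hu (by rw [h, zero_mul])
    have h2 : ∑ᶠ u, logd_D H ρ u * (1 / u) ^ k = ∑ u ∈ S, logd_D H ρ u * (1 / u) ^ k := by
      refine finsum_eq_sum_of_support_subset _ fun u hu => ?_
      rw [hS, Finset.coe_union, Set.Finite.coe_toFinset, Set.Finite.coe_toFinset]
      right
      rw [Function.mem_support]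
      intro h
      rw [Function.mem_support] at hu
      exact hu (by rw [h, zero_mul])
    rw [h1, h2, ← Finset.sum_sub_distrib, hP]
    rw [Finset.sum_filter_of_ne]
    · refine Finset.sum_congr rfl fun u _ => ?_
      rw [hDc]
      ring
    · intro u _ h h0
      apply h
      rw [h0]
      simp
  -- the integers `D u` are differences of orders
  have hDin : ∀ u ∈ closedBall (0 : ℂ) ρ, D u = (analyticOrderNatAt U ((s0 : ℂ) - u) : ℤ) -
      analyticOrderNatAt V ((s0 : ℂ) - u) := by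
    intro u hu
    have h1 := hDc u
    rw [logd_in hFd hF0 hu, logd_in hHd hH0 hu] at h1
    have h2 : analyticOrderNatAt F u = analyticOrderNatAt U ((s0 : ℂ) - u) := by
      unfold analyticOrderNatAt
      rw [hF, ord_shift]
    have h3 : analyticOrderNatAt H u = analyticOrderNatAt V ((s0 : ℂ) - u) := by
      unfold analyticOrderNatAt
      rw [hH, ord_shift]
    rw [h2, h3] at h1
    exact_mod_cast h1
  set u0 : ℂ := (s0 : ℂ) - ρ0 with hu0
  have hu0r : ‖u0‖ < r := hr1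
  have hu0P : u0 ∈ P := by
    refine hmemP _ ?_
    rw [hDin u0 (by rw [mem_closedBall_zero_iff]; linarith)]
    have h1 : (s0 : ℂ) - u0 = ρ0 := by rw [hu0]; ring
    rw [h1]
    intro h2
    apply hord
    omega
  have h0P : (0 : ℂ) ∉ P := by
    intro h
    apply hPD 0 h
    have h1 := hDc 0
    rw [logd_in hFd hF0 (mem_closedBall_self hρ0'.le), logd_in hHd hH0 (mem_closedBall_self hρ0'.le)] at h1
    have h2 : analyticOrderNatAt F 0 = 0 := by
      rw [analyticOrderNatAt, (hFd.analyticAt 0).analyticOrderAt_eq_zero.2 hF0]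
      rfl
    have h3 : analyticOrderNatAt H 0 = 0 := by
      rw [analyticOrderNatAt, (hHd.analyticAt 0).analyticOrderAt_eq_zero.2 hH0]
      rfl
    rw [h2, h3] at h1
    simpa using h1
  obtain ⟨u1, hu1P, hu1min⟩ := P.exists_min_image (fun u => ‖u‖) ⟨u0, hu0P⟩
  set R : ℝ := ‖u1‖ with hR
  have hR0 : 0 < R := by
    rw [hR, norm_pos_iff]
    intro h
    rw [h] at hu1P
    exact h0P hu1P
  have hRr : R < r := (hu1min u0 hu0P).trans_lt hu0r
  have hpos : (R : ℂ) ∈ P → 0 < D R := by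
    intro h
    have h1 := hPD _ h
    have hin : (R : ℂ) ∈ closedBall (0 : ℂ) ρ := by
      rw [mem_closedBall_zero_iff, Complex.norm_real, Real.norm_of_nonneg hR0.le]
      linarith
    rw [hDin _ hin] at h1 ⊢
    have h2 : V ((s0 : ℂ) - R) ≠ 0 := by
      have := hVne (s0 - R) (by rw [hρ] at hr2; linarith)
      push_cast at this
      exact this
    have h3 : analyticOrderNatAt V ((s0 : ℂ) - R) = 0 := by
      rw [analyticOrderNatAt, (hV.analyticAt _).analyticOrderAt_eq_zero.2 h2]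
      rfl
    rw [h3] at h1 ⊢
    have h4 : (0 : ℤ) ≤ (analyticOrderNatAt U ((s0 : ℂ) - R) : ℤ) := Int.natCast_nonneg _
    push_cast at h1 ⊢
    omega
  set c : ℕ → ℝ := fun k => R ^ k * (k * ((∑' i, d i * L i ^ k * Real.exp (-(s0 * L i))) / k.factorial)) with hc
  set q : ℝ := R / r with hq
  have hq0 : 0 ≤ q := by positivity
  have hq1 : q < 1 := (div_lt_one hr0).2 hRr
  set C : ℝ := max C1 (1 + B) with hC
  have hC0 : 0 ≤ C := hC1.trans (le_max_left _ _)
  have hcb : ∀ k, 1 ≤ k → ‖(c k : ℂ) + ∑ u ∈ P, (D u : ℂ) * (R / u) ^ k‖ ≤ C * q ^ k := by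
    intro k hk
    have h1 := hexp k hk
    rw [hsum k] at h1
    have h2 : (c k : ℂ) + ∑ u ∈ P, (D u : ℂ) * (R / u) ^ k = (R : ℂ) ^ k *
        (((k * ((∑' i, d i * L i ^ k * Real.exp (-(s0 * L i))) / k.factorial) : ℝ) : ℂ) +
        ∑ u ∈ P, (D u : ℂ) * (1 / u) ^ k) := by
      rw [mul_add, Finset.mul_sum, hc]
      congr 1
      · push_cast
        ring
      · refine Finset.sum_congr rfl fun u _ => ?_
        rw [div_pow, div_pow, one_pow]
        ring
    rw [h2, norm_mul, norm_pow, Complex.norm_real, Real.norm_of_nonneg hR0.le]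
    calc R ^ k * ‖_‖ ≤ R ^ k * (C1 / r ^ k) := by gcongr
      _ = C1 * q ^ k := by rw [hq, div_pow]; ring
      _ ≤ C * q ^ k := by
          gcongr
          exact le_max_left _ _
  obtain ⟨N0, hN0⟩ := one_sided hR0 hq0 hq1 hC0 hu1min hPD hpos ⟨u1, hu1P, rfl⟩ hcb
  -- the window of exponents
  have ha : 0 < s0 - 2 := by linarith
  set κ1 : ℝ := (1 - η) * (s0 - 2) / (1 - y) with hκ1
  set κ2 : ℝ := (s0 - 2) / (1 + y) with hκ2
  have hκ2pos : 0 < κ2 := by positivity
  have h1y : 0 < 1 - y := by linarith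
  have hκ12 : κ1 < κ2 := by
    rw [hκ1, hκ2, div_lt_div_iff₀ h1y (by linarith)]
    have : (1 - η) * (1 + y) < 1 - y := by nlinarith
    nlinarith
  obtain ⟨T, hT, hw⟩ := hwin (max 0 (max ((N0 + 2) / κ2) ((N0 + 2) / (κ2 - κ1))))
  have hT0 : 0 ≤ T := (le_max_left _ _).trans hT
  have hT1 : (N0 : ℝ) + 2 ≤ κ2 * T := by
    have := ((le_max_left _ _).trans (le_max_right _ _)).trans hT
    rw [div_le_iff₀ hκ2pos] at this
    linarith
  have hT2 : (N0 : ℝ) + 2 ≤ (κ2 - κ1) * T := by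
    have := ((le_max_right _ _).trans (le_max_right _ _)).trans hT
    rw [div_le_iff₀ (by linarith)] at this
    linarith
  set a : ℕ := max 1 ⌈κ1 * T⌉₊ with hadef
  have ha1 : 1 ≤ a := le_max_left _ _
  have ha2 : κ1 * T ≤ a := (Nat.le_ceil _).trans (by exact_mod_cast le_max_right _ _)
  have ha3 : (a : ℝ) + N0 ≤ κ2 * T := by
    have h1 : (a : ℝ) = max (1 : ℝ) (⌈κ1 * T⌉₊ : ℝ) := by rw [hadef]; push_cast; rfl
    rw [h1]
    rcases le_total (1 : ℝ) (⌈κ1 * T⌉₊ : ℝ) with h2 | h2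
    · rw [max_eq_right h2]
      rcases le_total 0 (κ1 * T) with h3 | h3
      · have := (Nat.ceil_lt_add_one h3).le
        linarith
      · have : ⌈κ1 * T⌉₊ = 0 := Nat.ceil_eq_zero.2 h3
        rw [this]
        push_cast
        linarith
    · rw [max_eq_left h2]
      linarith
  obtain ⟨k, hk, hck⟩ := hN0 a (a + N0) ha1 le_rfl
  obtain ⟨hk1, hk2⟩ := Finset.mem_Ico.1 hk
  have hk0 : 1 ≤ k := ha1.trans hk1
  have hkp : (0 : ℝ) < k := by exact_mod_cast hk0
  have hkl : κ1 * T ≤ k := ha2.trans (by exact_mod_cast hk1)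
  have hku : (k : ℝ) ≤ κ2 * T := by
    have : (k : ℝ) ≤ a + N0 := by exact_mod_cast hk2.le
    linarith
  have hw1 : (1 - η) * T ≤ (1 - y) * (k / (s0 - 2)) := by
    rw [mul_div_assoc', le_div_iff₀ ha]
    have h1 : (1 - y) * (κ1 * T) = (1 - η) * T * (s0 - 2) := by
      rw [hκ1]
      field_simp
    rw [← h1]
    gcongr
  have hw2 : (1 + y) * (k / (s0 - 2)) ≤ T := by
    rw [mul_div_assoc', div_le_iff₀ ha]
    have h1 : (1 + y) * (κ2 * T) = T * (s0 - 2) := by
      rw [hκ2]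
      field_simp
    rw [← h1]
    gcongr
  obtain ⟨_, hlow⟩ := tail_low (η := η) hL hB hs0 hσ.le hy0 hy1 hτ1 hτ2 hk0 hw1 hw2 hw
  rw [← hBdef] at hlow
  have hfac : (0 : ℝ) < k.factorial := by exact_mod_cast k.factorial_pos
  have h1 : -((1 + B) * (k * (R ^ k / ρ ^ k))) ≤ c k := by
    simp only [hc]
    have h2 : -((1 + B) * (1 / ρ ^ k)) ≤ (∑' i, d i * L i ^ k * Real.exp (-(s0 * L i))) / k.factorial := by
      rw [le_div_iff₀ hfac]
      refine le_trans (le_of_eq ?_) hlow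
      ring
    have h3 : -((1 + B) * (k * (R ^ k / ρ ^ k))) = R ^ k * (k * -((1 + B) * (1 / ρ ^ k))) := by ring
    rw [h3]
    gcongr
  have h2 : (1 + B) * (k * (R ^ k / ρ ^ k)) ≤ C * k * q ^ k := by
    rw [hq, div_pow, mul_assoc]
    have : 1 + B ≤ C := le_max_right _ _
    gcongr
  linarith

end Pool.Agent.H63.T5
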