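import Mathlib

/-!
# A one-sided estimate for power sums
-/

set_option autoImplicit false

namespace Pool.Agent.H63.T5

open Finset

/-- geometric sums -/
theorem geo_Ico {z : ℂ} (hz : ‖z‖ ≤ 1) (hz1 : z ≠ 1) {a b : ℕ} (hab : a ≤ b) :
    ‖∑ k ∈ Ico a b, z ^ k‖ ≤ 2 / ‖1 - z‖ := by
  have h1 : 1 - z ≠ 0 := sub_ne_zero.2 (Ne.symm hz1)
  have h2 : 0 < ‖1 - z‖ := norm_pos_iff.2 h1
  have h3 : z - 1 ≠ 0 := sub_ne_zero.2 hz1
  rw [geom_sum_Ico hz1 hab, norm_div, norm_sub_rev z 1]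
  gcongr
  refine (norm_sub_le _ _).trans ?_
  rw [norm_pow, norm_pow]
  have h4 := pow_le_one₀ (norm_nonneg z) hz (n := b)
  have h5 := pow_le_one₀ (norm_nonneg z) hz (n := a)
  linarith

/-- **One-sided power sum estimate.** -/
theorem one_sided {P : Finset ℂ} {D : ℂ → ℤ} {R q C : ℝ} (hR : 0 < R) (hq0 : 0 ≤ q) (hq : q < 1) (hC : 0 ≤ C)
    (hP : ∀ u ∈ P, R ≤ ‖u‖) (hD : ∀ u ∈ P, D u ≠ 0) (hpos : (R : ℂ) ∈ P → 0 < D R) (h1 : ∃ u ∈ P, ‖u‖ = R)
    {c : ℕ → ℝ} (hc : ∀ k, 1 ≤ k → ‖(c k : ℂ) + ∑ u ∈ P, (D u : ℂ) * (R / u) ^ k‖ ≤ C * q ^ k) :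
    ∃ N0 : ℕ, ∀ a b : ℕ, 1 ≤ a → a + N0 ≤ b → ∃ k ∈ Ico a b, c k < - (C * k * q ^ k) := by
  classical
  obtain ⟨u1, hu1, hu1R⟩ := h1
  have hPne : ∀ u ∈ P, u ≠ 0 := by
    intro u hu h0
    have := hP u hu
    rw [h0, norm_zero] at this
    linarith
  have hz : ∀ u ∈ P, ‖(R : ℂ) / u‖ ≤ 1 := by
    intro u hu
    have h2 := hP u hu
    rw [norm_div, Complex.norm_real, Real.norm_of_nonneg hR.le]
    exact div_le_one_of_le₀ h2 (norm_nonneg _)
  -- the constants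
  have hsum1 : Summable fun k : ℕ => q ^ k := summable_geometric_of_lt_one hq0 hq
  have hsum2 : Summable fun k : ℕ => (k : ℝ) * q ^ k := by
    have := summable_pow_mul_geometric_of_norm_lt_one 1 (r := q) (by rwa [Real.norm_of_nonneg hq0])
    simpa using this
  set E1 : ℝ := C * ∑' k : ℕ, q ^ k with hE1
  set E2 : ℝ := C * ∑' k : ℕ, (k : ℝ) * q ^ k with hE2
  have hE1le : ∀ s : Finset ℕ, ∑ k ∈ s, C * q ^ k ≤ E1 := by
    intro s
    rw [← Finset.mul_sum]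
    exact mul_le_mul_of_nonneg_left (hsum1.sum_le_tsum s fun k _ => by positivity) hC
  have hE2le : ∀ s : Finset ℕ, ∑ k ∈ s, C * k * q ^ k ≤ E2 := by
    intro s
    simp_rw [mul_assoc]
    rw [← Finset.mul_sum]
    exact mul_le_mul_of_nonneg_left (hsum2.sum_le_tsum s fun k _ => by positivity) hC
  set G1 : ℝ := ∑ u ∈ P, |(D u : ℝ)| * (2 / ‖1 - (R : ℂ) / u‖) with hG1
  set z1 : ℂ := (starRingEnd ℂ) ((R : ℂ) / u1) with hz1
  have hz1n : ‖z1‖ = 1 := by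
    rw [hz1, Complex.norm_conj, norm_div, Complex.norm_real, Real.norm_of_nonneg hR.le, hu1R, div_self hR.ne']
  have hz1m : (R : ℂ) / u1 * z1 = 1 := by
    rw [hz1, Complex.mul_conj, Complex.normSq_eq_norm_sq, norm_div, Complex.norm_real,
      Real.norm_of_nonneg hR.le, hu1R, div_self hR.ne']
    simp
  set G2 : ℝ := ∑ u ∈ P, |(D u : ℝ)| * (2 / ‖1 - (R : ℂ) / u * z1‖) with hG2
  obtain ⟨N0, hN0⟩ := exists_nat_gt (G1 + E1 + 2 * E2 + G2 + E1)
  refine ⟨N0, fun a b ha hab => ?_⟩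
  by_contra hcon
  push Not at hcon
  have hab' : a ≤ b := by omega
  -- the sum of the `c k`
  have hk1 : ∀ k ∈ Ico a b, 1 ≤ k := fun k hk => ha.trans (mem_Ico.1 hk).1
  have hS0 : ∑ k ∈ Ico a b, c k ≤ G1 + E1 := by
    have h2 : ∀ u ∈ P, -(((D u : ℂ)) * ∑ k ∈ Ico a b, ((R : ℂ) / u) ^ k).re ≤
        |(D u : ℝ)| * (2 / ‖1 - (R : ℂ) / u‖) := by
      intro u hu
      by_cases hur : u = R
      · have h3 : (R : ℂ) / u = 1 := by
          rw [hur, div_self]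
          exact_mod_cast hR.ne'
        have h4 : 0 < D u := by
          rw [hur] at hu ⊢
          exact hpos hu
        rw [h3]
        simp only [one_pow, sum_const, Nat.card_Ico, nsmul_eq_mul, mul_one, sub_self, norm_zero, div_zero,
          mul_zero]
        have h5 : (((D u : ℂ)) * ((b - a : ℕ) : ℂ)).re = (D u : ℝ) * ((b - a : ℕ) : ℝ) := by
          rw [← Complex.ofReal_intCast, ← Complex.ofReal_natCast, ← Complex.ofReal_mul, Complex.ofReal_re]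
        rw [h5]
        have h6 : (0 : ℝ) ≤ (D u : ℝ) := by exact_mod_cast h4.le
        have : 0 ≤ (D u : ℝ) * ((b - a : ℕ) : ℝ) := by positivity
        linarith
      · have h3 : (R : ℂ) / u ≠ 1 := by
          intro h
          rw [div_eq_one_iff_eq (hPne u hu)] at h
          exact hur h.symm
        have h4 := geo_Ico (hz u hu) h3 hab'
        calc -(((D u : ℂ)) * ∑ k ∈ Ico a b, ((R : ℂ) / u) ^ k).re
            ≤ ‖((D u : ℂ)) * ∑ k ∈ Ico a b, ((R : ℂ) / u) ^ k‖ := by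
              have := Complex.abs_re_le_norm (((D u : ℂ)) * ∑ k ∈ Ico a b, ((R : ℂ) / u) ^ k)
              have h6 := neg_abs_le (((D u : ℂ)) * ∑ k ∈ Ico a b, ((R : ℂ) / u) ^ k).re
              linarith
          _ = |(D u : ℝ)| * ‖∑ k ∈ Ico a b, ((R : ℂ) / u) ^ k‖ := by
              rw [norm_mul, Complex.norm_intCast]
          _ ≤ _ := by gcongr
    have h3 : ‖∑ k ∈ Ico a b, ((c k : ℂ) + ∑ u ∈ P, (D u : ℂ) * (R / u) ^ k)‖ ≤ E1 :=
      (norm_sum_le_of_le _ fun k hk => hc k (hk1 k hk)).trans (hE1le _)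
    have h4 : (∑ k ∈ Ico a b, ((c k : ℂ) + ∑ u ∈ P, (D u : ℂ) * (R / u) ^ k)).re =
        ∑ k ∈ Ico a b, c k + ∑ u ∈ P, (((D u : ℂ)) * ∑ k ∈ Ico a b, ((R : ℂ) / u) ^ k).re := by
      rw [sum_add_distrib, sum_comm, Complex.add_re, Complex.re_sum, Complex.re_sum]
      congr 1
      refine sum_congr rfl fun u _ => ?_
      rw [mul_sum]
    have h5 := (Complex.abs_re_le_norm _).trans h3
    rw [h4] at h5
    have h6 := (abs_le.1 h5).2
    have h7 := sum_le_sum h2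
    rw [sum_neg_distrib] at h7
    linarith
  -- the sum of the absolute values
  have hS1 : ∑ k ∈ Ico a b, |c k| ≤ G1 + E1 + 2 * E2 := by
    have h2 : ∀ k ∈ Ico a b, |c k| ≤ c k + 2 * (C * k * q ^ k) := by
      intro k hk
      have h3 := hcon k hk
      have h4 : 0 ≤ C * k * q ^ k := by positivity
      rw [abs_le]
      constructor <;> linarith
    have h3 := sum_le_sum h2
    rw [sum_add_distrib, ← mul_sum] at h3
    have := hE2le (Ico a b)
    linarith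
  -- the twisted sum
  have hS2 : ((b - a : ℕ) : ℝ) ≤ (∑ k ∈ Ico a b, |c k|) + G2 + E1 := by
    have h3 : ‖∑ k ∈ Ico a b, ((c k : ℂ) + ∑ u ∈ P, (D u : ℂ) * (R / u) ^ k) * z1 ^ k‖ ≤ E1 := by
      refine (norm_sum_le_of_le _ fun k hk => ?_).trans (hE1le _)
      rw [norm_mul, norm_pow, hz1n, one_pow, mul_one]
      exact hc k (hk1 k hk)
    have h4 : ∑ k ∈ Ico a b, ((c k : ℂ) + ∑ u ∈ P, (D u : ℂ) * (R / u) ^ k) * z1 ^ k =
        ∑ k ∈ Ico a b, (c k : ℂ) * z1 ^ k + ∑ u ∈ P.erase u1, (D u : ℂ) * ∑ k ∈ Ico a b, ((R : ℂ) / u * z1) ^ k +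
        (D u1 : ℂ) * ((b - a : ℕ) : ℂ) := by
      have h5 : ∀ k ∈ Ico a b, ((c k : ℂ) + ∑ u ∈ P, (D u : ℂ) * (R / u) ^ k) * z1 ^ k =
          (c k : ℂ) * z1 ^ k + ∑ u ∈ P, (D u : ℂ) * ((R : ℂ) / u * z1) ^ k := by
        intro k _
        rw [add_mul, sum_mul]
        congr 1
        refine sum_congr rfl fun u _ => ?_
        rw [mul_pow]
        ring
      rw [sum_congr rfl h5, sum_add_distrib, sum_comm, ← sum_erase_add _ _ hu1, add_assoc]
      congr 1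
      rw [hz1m]
      simp_rw [one_pow, mul_one]
      rw [sum_const, Nat.card_Ico, nsmul_eq_mul, mul_comm ((D u1 : ℂ))]
      congr 1
      refine sum_congr rfl fun u _ => ?_
      rw [mul_sum]
    have h5 : ‖∑ k ∈ Ico a b, (c k : ℂ) * z1 ^ k‖ ≤ ∑ k ∈ Ico a b, |c k| := by
      refine norm_sum_le_of_le _ fun k _ => ?_
      rw [norm_mul, norm_pow, hz1n, one_pow, mul_one, Complex.norm_real, Real.norm_eq_abs]
    have h6 : ‖∑ u ∈ P.erase u1, (D u : ℂ) * ∑ k ∈ Ico a b, ((R : ℂ) / u * z1) ^ k‖ ≤ G2 := by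
      refine (norm_sum_le_of_le (f := fun u => (D u : ℂ) * ∑ k ∈ Ico a b, ((R : ℂ) / u * z1) ^ k)
        (n := fun u => |(D u : ℝ)| * (2 / ‖1 - (R : ℂ) / u * z1‖)) _ fun u hu => ?_).trans ?_
      · obtain ⟨hne, huP⟩ := mem_erase.1 hu
        rw [norm_mul, Complex.norm_intCast]
        have h7 : ‖(R : ℂ) / u * z1‖ ≤ 1 := by
          rw [norm_mul, hz1n, mul_one]
          exact hz u huP
        have h8 : (R : ℂ) / u * z1 ≠ 1 := by
          intro h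
          rw [← hz1m] at h
          have hz10 : z1 ≠ 0 := by
            intro h0
            rw [h0, norm_zero] at hz1n
            exact zero_ne_one hz1n
          have h9 := mul_right_cancel₀ hz10 h
          have hR0 : (R : ℂ) ≠ 0 := by exact_mod_cast hR.ne'
          rw [div_eq_div_iff (hPne u huP) (hPne u1 hu1)] at h9
          exact hne (mul_left_cancel₀ hR0 h9).symm
        have := geo_Ico h7 h8 hab'
        gcongr
      · refine sum_le_sum_of_subset_of_nonneg (erase_subset _ _) fun u _ _ => by positivity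
    have h7 : ((b - a : ℕ) : ℝ) ≤ ‖(D u1 : ℂ) * ((b - a : ℕ) : ℂ)‖ := by
      rw [norm_mul, Complex.norm_intCast, Complex.norm_natCast]
      have h8 : (1 : ℝ) ≤ |(D u1 : ℝ)| := by
        have := Int.one_le_abs (hD u1 hu1)
        exact_mod_cast this
      nlinarith [Nat.cast_nonneg (α := ℝ) (b - a)]
    have h8 : (D u1 : ℂ) * ((b - a : ℕ) : ℂ) =
        ∑ k ∈ Ico a b, ((c k : ℂ) + ∑ u ∈ P, (D u : ℂ) * (R / u) ^ k) * z1 ^ k -
        ∑ k ∈ Ico a b, (c k : ℂ) * z1 ^ k -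
        ∑ u ∈ P.erase u1, (D u : ℂ) * ∑ k ∈ Ico a b, ((R : ℂ) / u * z1) ^ k := by
      rw [h4]
      ring
    rw [h8] at h7
    have h9 := norm_sub_le (∑ k ∈ Ico a b, ((c k : ℂ) + ∑ u ∈ P, (D u : ℂ) * (R / u) ^ k) * z1 ^ k -
        ∑ k ∈ Ico a b, (c k : ℂ) * z1 ^ k)
        (∑ u ∈ P.erase u1, (D u : ℂ) * ∑ k ∈ Ico a b, ((R : ℂ) / u * z1) ^ k)
    have h10 := norm_sub_le (∑ k ∈ Ico a b, ((c k : ℂ) + ∑ u ∈ P, (D u : ℂ) * (R / u) ^ k) * z1 ^ k)
        (∑ k ∈ Ico a b, (c k : ℂ) * z1 ^ k)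
    linarith
  have h2 : (N0 : ℝ) ≤ ((b - a : ℕ) : ℝ) := by
    have : N0 ≤ b - a := by omega
    exact_mod_cast this
  linarith

end Pool.Agent.H63.T5
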